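import Pool.Agent.MWA.StmtsP
import Pool.Agent.Helper28_MVO.ORD

/-!
# MWA row ORQ (helper43): the order of the letters in gathered words
-/

set_option autoImplicit false

namespace Pool.Agent.MWA.H43

open Pool.Agent.Helper14_MV Pool.Agent.Helper2_MV Pool.Agent.MVO Pool.Agent.MWL Pool.Agent.MWS
open Pool.Agent.MVO.H28 (hxy bef blkOk_gb flat_bl bef_false bef_true not_both exch_perm)

theorem flat_filter (x y : ℕ) (l : List ℕ) :
    (l.filter (fun c => decide (c = x ∨ c = y))).flatMap (hxy x y) = l.flatMap (hxy x y) := by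
  induction l with
  | nil => rfl
  | cons c l ih =>
    by_cases h : c = x ∨ c = y
    · rw [List.filter_cons_of_pos (by simpa using h), List.flatMap_cons, ih, List.flatMap_cons]
    · rw [List.filter_cons_of_neg (by simpa using h), ih, List.flatMap_cons]
      rw [not_or] at h
      unfold hxy
      rw [if_neg h.1, if_neg h.2, List.nil_append]

theorem blkOk_r2 {k : ℕ} {x y : ℕ} {B : ℕ → List ℕ} (h : BlkOk k B) : BlkOk k (r2 x y B) := by
  intro j hj c hc
  exact h j hj c (List.mem_of_mem_filter hc)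

theorem restr (θ : FIC) {k : ℕ} {B B' : ℕ → List ℕ} (x y : ℕ) (hB : BlkOk k B)
    (hB' : BlkOk k B') (h : RR θ (asm k B) (asm k B')) :
    RR θ (asm k (r2 x y B)) (asm k (r2 x y B')) := by
  have h1 := h.filter (fun c => decide (c = x ∨ c = y) || decide (2 ≤ c ∧ c ≤ k + 1))
  have hp : ∀ c, 2 ≤ c → c ≤ k + 1 →
      (fun c => decide (c = x ∨ c = y) || decide (2 ≤ c ∧ c ≤ k + 1)) c = true := by
    intro c h2 h3
    simp [h2, h3]
  have key : ∀ C : ℕ → List ℕ, BlkOk k C →
      (asm k C).filter (fun c => decide (c = x ∨ c = y) || decide (2 ≤ c ∧ c ≤ k + 1)) =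
        asm k (r2 x y C) := by
    intro C hC
    rw [asm_filter _ hp]
    refine asm_congr fun j hj => ?_
    refine List.filter_congr fun c hc => ?_
    have h2 : ¬ (2 ≤ c ∧ c ≤ k + 1) := hC j hj c hc
    rw [decide_eq_false h2, Bool.or_false]
  rwa [key B hB, key B' hB'] at h1

/-- the invariant -/
def Iv (θ : FIC) (k : ℕ) (X : List ℕ) (n : ℕ → ℕ → ℕ) (D' D : ℕ → List ℕ) : Prop :=
  GData k X n D ∧ ∀ x ∈ X, ∀ y ∈ X, x ≠ y → RR θ (asm k (r2 x y (fun j => gb (n j) (D j))))
    (asm k (r2 x y (fun j => gb (n j) (D' j))))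

theorem ostep {θ : FIC} (hSW : ∀ (k : ℕ) (X : List ℕ) (n : ℕ → ℕ → ℕ) (D : ℕ → List ℕ),
      GData k X n D → ∀ i ≤ k, ∀ (A B : List ℕ) (x y : ℕ), D i = A ++ x :: y :: B →
      (∀ e, Ex θ k (fun j => n j x) (fun j => n j y) e i) →
        RR θ (gw k n D) (gw k n (Function.update D i (A ++ y :: x :: B))))
    (hB : ∀ (k : ℕ) (a b : ℕ → ℕ) (i : ℕ), deg k a ≠ 1 → deg k b ≠ 1 →
      ¬ (Lst k a i ∧ Lst k b i) → Bt θ k a b i)
    (hW : ∀ (k : ℕ) (a b : ℕ → ℕ) (i : ℕ) (e e' : ℕ → Bool), deg k a ≠ 1 → deg k b ≠ 1 →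
      Lst k a i → Lst k b i → e i ≠ e' i → RR θ (w2 k a b e) (w2 k a b e') → Bt θ k a b i)
    {k : ℕ} {X : List ℕ} {n : ℕ → ℕ → ℕ} {D D' : ℕ → List ℕ} (hI : Iv θ k X n D' D)
    (hD' : ∀ j, (D' j).Perm X) {i : ℕ} (hi : i ≤ k) {l2 : List ℕ}
    (hex : Exch (D' i) (D i) l2) :
    Iv θ k X n D' (Function.update D i l2) ∧
      RR θ (gw k n D) (gw k n (Function.update D i l2)) := by
  obtain ⟨hD, hr⟩ := hI
  have hp2 := exch_perm hex
  obtain ⟨A, B, x, y, hDi, rfl, P, Q, R, hD'i⟩ := hex
  have hGD' : GData k X n D' := ⟨hD.nodup, hD.ns, hD.mult, hD'⟩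
  have hnd : ∀ j, (D j).Nodup := fun j => (hD.perm j).nodup_iff.2 hD.nodup
  have hnd' : ∀ j, (D' j).Nodup := fun j => (hD' j).nodup_iff.2 hD.nodup
  have hxX : x ∈ X := (hD.perm i).mem_iff.1 (by rw [hDi]; simp)
  have hyX : y ∈ X := (hD.perm i).mem_iff.1 (by rw [hDi]; simp)
  have hne : x ≠ y := by
    intro h
    have h1 := hnd i
    rw [hDi, h] at h1
    have h2 := (List.nodup_append.1 h1).2.1
    rw [List.nodup_cons] at h2
    exact h2.1 (List.mem_cons_self ..)
  have hda : 2 ≤ deg k (fun j => n j x) := hD.mult x hxX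
  have hdb : 2 ≤ deg k (fun j => n j y) := hD.mult y hyX
  have hbt : Bt θ k (fun j => n j x) (fun j => n j y) i := by
    by_cases hl : Lst k (fun j => n j x) i ∧ Lst k (fun j => n j y) i
    · have e1 : asm k (fun j => (r2 x y (fun j => gb (n j) (D j)) j).flatMap (hxy x y)) =
          w2 k (fun j => n j x) (fun j => n j y) (fun j => bef x y (D j)) := by
        unfold w2
        refine asm_congr fun j _ => ?_
        change ((gb (n j) (D j)).filter (fun c => decide (c = x ∨ c = y))).flatMap (hxy x y) = _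
        rw [flat_filter]
        exact flat_bl (n j) hne (hnd j) ((hD.perm j).mem_iff.2 hxX) ((hD.perm j).mem_iff.2 hyX)
      have e2 : asm k (fun j => (r2 x y (fun j => gb (n j) (D' j)) j).flatMap (hxy x y)) =
          w2 k (fun j => n j x) (fun j => n j y) (fun j => bef x y (D' j)) := by
        unfold w2
        refine asm_congr fun j _ => ?_
        change ((gb (n j) (D' j)).filter (fun c => decide (c = x ∨ c = y))).flatMap (hxy x y) = _
        rw [flat_filter]
        exact flat_bl (n j) hne (hnd' j) ((hD' j).mem_iff.2 hxX) ((hD' j).mem_iff.2 hyX)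
      have hb0 : bef x y (D i) = false := by
        apply bef_false
        rintro ⟨P', Q', R', h⟩
        exact not_both hne (hnd i) (P := A) (Q := []) (R := B) (by rw [hDi]; simp) h
      have hb1 : bef x y (D' i) = true := bef_true ⟨P, Q, R, hD'i⟩
      have h2 := rr_sub θ (hxy x y) (blkOk_r2 (blkOk_gb hD)) (blkOk_r2 (blkOk_gb hGD'))
        (hr x hxX y hyX hne)
      rw [e1, e2] at h2
      refine hW k _ _ i _ _ (by omega) (by omega) hl.1 hl.2 ?_ h2
      rw [hb0, hb1]
      decide
    · exact hB k _ _ i (by omega) (by omega) hl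
  have hst := hSW k X n D hD i hi A B x y hDi hbt
  have hD2 : GData k X n (Function.update D i (A ++ y :: x :: B)) := by
    refine ⟨hD.nodup, hD.ns, hD.mult, fun j => ?_⟩
    by_cases hj : j = i
    · subst hj
      rw [Function.update_self]
      exact hp2.trans (hD.perm j)
    · rw [Function.update_of_ne hj]
      exact hD.perm j
  refine ⟨⟨hD2, fun x' hx' y' hy' hne' => ?_⟩, hst⟩
  have h1 := restr θ x' y' (blkOk_gb hD) (blkOk_gb hD2) hst
  exact θ.trans (RR.symm h1) (hr x' hx' y' hy' hne')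

/-- **ORQ** -/
theorem orq (hSwa : SwaStmt) (hBub : BubStmt) (hW2x : W2xStmt) (hBtp : BtpStmt) : OrqStmt := by
  intro β hcl hr0 θ hle k X n D D' hD hD' hr
  have hclθ : ClA θ := ClA.mono hcl hle
  have hr0θ : R0 θ := hle _ _ hr0
  have hSW := fun k X n D => hSwa β hcl θ hle k X n D
  have hB := (hBtp θ hclθ hr0θ).1
  have hW := hW2x θ hclθ
  have key : ∀ m ≤ k + 1, ∃ D1 : ℕ → List ℕ, Iv θ k X n D' D1 ∧
      RR θ (gw k n D) (gw k n D1) ∧ ∀ j < m, D1 j = D' j := by
    intro m
    induction m with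
    | zero =>
      intro _
      exact ⟨D, ⟨hD, hr⟩, RR.refl _, fun j hj => absurd hj (Nat.not_lt_zero j)⟩
    | succ m ih =>
      intro hm
      obtain ⟨D1, hI, hω, hj⟩ := ih (by omega)
      have hmk : m ≤ k := by omega
      have hb := hBub (D1 m) (D' m) ((hI.1.perm m).trans (hD' m).symm)
        ((hD' m).nodup_iff.2 hD.nodup)
      have hloop : ∀ l : List ℕ, Relation.ReflTransGen (Exch (D' m)) (D1 m) l →
          Iv θ k X n D' (Function.update D1 m l) ∧
          RR θ (gw k n D1) (gw k n (Function.update D1 m l)) := by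
        intro l hl
        induction hl with
        | refl =>
          rw [Function.update_eq_self]
          exact ⟨hI, RR.refl _⟩
        | tail hd hst ih2 =>
          rename_i l1 l2
          obtain ⟨hI1, hω1⟩ := ih2
          have h1 := ostep hSW hB hW hI1 hD' hmk (l2 := l2)
            (by rw [Function.update_self]; exact hst)
          rw [Function.update_idem] at h1
          exact ⟨h1.1, FIC.trans _ hω1 h1.2⟩
      obtain ⟨h1, h2⟩ := hloop _ hb
      refine ⟨_, h1, FIC.trans _ hω h2, fun j hjm => ?_⟩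
      by_cases hjm' : j = m
      · subst hjm'
        rw [Function.update_self]
      · rw [Function.update_of_ne hjm']
        exact hj j (by omega)
  obtain ⟨D1, _, hω, hj⟩ := key (k + 1) le_rfl
  have e : gw k n D1 = gw k n D' := by
    unfold gw
    exact asm_congr fun j hjk => by rw [hj j (by omega)]
  rw [← e]
  exact hω

end Pool.Agent.MWA.H43
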